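import Mathlib

set_option autoImplicit false
open Metric Matrix
open scoped InnerProductSpace

namespace Pool.Agent.Results.MP_93c8fe_an.NoOver

/-- the real sequence space `ℓ₂` -/
abbrev L2 : Type := lp (fun _ : ℕ => ℝ) 2

/-- Gelfand numbers `c_n(S,F)` -/
noncomputable def gel {X Y : Type*} [NormedAddCommGroup X] [NormedSpace ℝ X]
    [NormedAddCommGroup Y] [NormedSpace ℝ Y] (n : ℕ) (S : X →L[ℝ] Y) (F : Set X) : ℝ :=
  ⨅ L : Fin n → (X →L[ℝ] ℝ),
    sSup {t : ℝ | ∃ f ∈ F, ∃ g ∈ F, (∀ k, L k f = L k g) ∧ t = ‖S f - S g‖ / 2}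

/-- Hilbert numbers `h_n(S,F)` -/
noncomputable def hil {X Y : Type*} [NormedAddCommGroup X] [NormedSpace ℝ X]
    [NormedAddCommGroup Y] [NormedSpace ℝ Y] (n : ℕ) (S : X →L[ℝ] Y) (F : Set X) : ℝ :=
  sSup {t : ℝ | ∃ (B : Y →L[ℝ] L2) (A : L2 →L[ℝ] X) (x : X), ‖B‖ ≤ 1 ∧ x ∈ F ∧
    (∀ u ∈ closedBall (0 : L2) 1, A u + x ∈ F) ∧
    t = gel n (B.comp (S.comp A)) (closedBall 0 1)}

section gen
variable {X Y : Type*} [NormedAddCommGroup X] [NormedSpace ℝ X]
  [NormedAddCommGroup Y] [NormedSpace ℝ Y]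

lemma set_bd {n : ℕ} (S : X →L[ℝ] Y) (L : Fin n → (X →L[ℝ] ℝ)) :
    ∀ t ∈ {t : ℝ | ∃ f ∈ closedBall (0 : X) 1, ∃ g ∈ closedBall (0 : X) 1,
      (∀ k, L k f = L k g) ∧ t = ‖S f - S g‖ / 2}, t ≤ ‖S‖ := by
  rintro t ⟨f, hf, g, hg, -, rfl⟩
  have h1 := S.unit_le_opNorm f (mem_closedBall_zero_iff.1 hf)
  have h2 := S.unit_le_opNorm g (mem_closedBall_zero_iff.1 hg)
  have := norm_sub_le (S f) (S g)
  linarith

lemma sup_nonneg {n : ℕ} (S : X →L[ℝ] Y) (F : Set X) (L : Fin n → (X →L[ℝ] ℝ)) :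
    0 ≤ sSup {t : ℝ | ∃ f ∈ F, ∃ g ∈ F, (∀ k, L k f = L k g) ∧ t = ‖S f - S g‖ / 2} :=
  Real.sSup_nonneg (by rintro t ⟨f, -, g, -, -, rfl⟩; positivity)

lemma gel_nonneg (n : ℕ) (S : X →L[ℝ] Y) (F : Set X) : 0 ≤ gel n S F :=
  Real.iInf_nonneg (sup_nonneg S F)

lemma gel_le {n : ℕ} (S : X →L[ℝ] Y) (F : Set X) (L : Fin n → (X →L[ℝ] ℝ)) : gel n S F ≤
    sSup {t : ℝ | ∃ f ∈ F, ∃ g ∈ F, (∀ k, L k f = L k g) ∧ t = ‖S f - S g‖ / 2} :=
  ciInf_le ⟨0, by rintro _ ⟨L, rfl⟩; exact sup_nonneg S F L⟩ L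

lemma gel_le_norm (n : ℕ) (S : X →L[ℝ] Y) : gel n S (closedBall 0 1) ≤ ‖S‖ :=
  (gel_le S _ 0).trans (Real.sSup_le (set_bd S 0) (norm_nonneg _))

lemma exists_of_lt {n : ℕ} (S : X →L[ℝ] Y) {c : ℝ} (hc : c < gel n S (closedBall 0 1))
    (L : Fin n → (X →L[ℝ] ℝ)) : ∃ f, ‖f‖ ≤ 1 ∧ (∀ k, L k f = 0) ∧ c < ‖S f‖ := by
  obtain ⟨t, ⟨f, hf, g, hg, hL, rfl⟩, ht⟩ := exists_lt_of_lt_csSup
    (by exact ⟨_, 0, by simp, 0, by simp, fun _ => rfl, rfl⟩) (hc.trans_le (gel_le S _ L))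
  refine ⟨(1 / 2 : ℝ) • (f - g), ?_, fun k => by simp [hL k], ?_⟩
  · have := norm_sub_le f g
    rw [mem_closedBall_zero_iff] at hf hg
    rw [norm_smul]; norm_num; linarith
  · rw [map_smul, map_sub, norm_smul]; norm_num; linarith

lemma le_gel {n : ℕ} (S : X →L[ℝ] Y) {c : ℝ}
    (h : ∀ L : Fin n → (X →L[ℝ] ℝ), ∃ f, ‖f‖ ≤ 1 ∧ (∀ k, L k f = 0) ∧ c ≤ ‖S f‖) :
    c ≤ gel n S (closedBall 0 1) := by
  refine le_ciInf fun L => ?_
  obtain ⟨f, hf, hL, hc⟩ := h L
  refine hc.trans (le_csSup ⟨_, set_bd S L⟩ ⟨f, by simpa using hf, -f, by simpa using hf,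
    fun k => by simp [hL k], ?_⟩)
  rw [map_neg, sub_neg_eq_add, ← two_smul ℝ, norm_smul]; norm_num

lemma le_hil (n : ℕ) (S : X →L[ℝ] Y) (B : Y →L[ℝ] L2) (A : L2 →L[ℝ] X) (hB : ‖B‖ ≤ 1)
    (hA : ∀ u, ‖A u‖ ≤ ‖u‖) :
    gel n (B.comp (S.comp A)) (closedBall 0 1) ≤ hil n S (closedBall 0 1) := by
  refine le_csSup ⟨‖S‖ * 2, ?_⟩ ⟨B, A, 0, hB, by simp, fun u hu => ?_, rfl⟩
  · rintro t ⟨B, A, x, hB, hx, hA, rfl⟩
    refine (gel_le_norm _ _).trans ?_
    have h2 : ‖A‖ ≤ 2 := by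
      refine ContinuousLinearMap.opNorm_le_of_unit_norm (by norm_num) fun u hu => ?_
      have h := hA u (by simp [hu])
      rw [mem_closedBall_zero_iff] at h hx
      have := norm_sub_le (A u + x) x
      rw [add_sub_cancel_right] at this
      linarith
    calc _ ≤ ‖B‖ * ‖S.comp A‖ := ContinuousLinearMap.opNorm_comp_le _ _
      _ ≤ 1 * (‖S‖ * ‖A‖) := by gcongr; exact ContinuousLinearMap.opNorm_comp_le _ _
      _ ≤ ‖S‖ * 2 := by rw [one_mul]; gcongr
  · rw [mem_closedBall_zero_iff] at hu ⊢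
    rw [add_zero]; exact (hA u).trans hu

end gen

lemma sv {n : ℕ} (M : Matrix (Fin n) (Fin n) ℝ) : ∃ μ : Fin n → ℝ, (∀ i, 0 ≤ μ i) ∧
    ∏ i, μ i = M.det ^ 2 ∧ ∀ (k : Fin n) (L : Fin k → ((Fin n → ℝ) →ₗ[ℝ] ℝ)),
      ∃ u : Fin n → ℝ, u ⬝ᵥ u = 1 ∧ (∀ t, L t u = 0) ∧ μ k ≤ (M *ᵥ u) ⬝ᵥ (M *ᵥ u) := by
  have hG : (Mᴴ * M).PosSemidef := Matrix.posSemidef_conjTranspose_mul_self M
  set ev := hG.1.eigenvalues with hev
  set σ := Tuple.sort (fun i => -ev i)
  have hσ : ∀ i j, i ≤ j → ev (σ j) ≤ ev (σ i) := fun i j h => by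
    have := Tuple.monotone_sort (fun i => -ev i) h
    simpa using this
  refine ⟨fun i => ev (σ i), fun i => hG.eigenvalues_nonneg _, ?_, fun k L => ?_⟩
  · rw [Equiv.prod_comp σ ev]
    have := hG.1.det_eq_prod_eigenvalues
    simp only [Matrix.det_mul, Matrix.det_conjTranspose, star_trivial, RCLike.ofReal_real_eq_id,
      id] at this
    rw [← this, sq]
  · set ι : Fin (k + 1) → Fin n := fun t => σ (Fin.castLE k.2 t)
    have hι : Function.Injective ι := σ.injective.comp (Fin.castLE_injective _)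
    set w : Fin (k + 1) → (Fin n → ℝ) := fun t => (hG.1.eigenvectorBasis (ι t)).ofLp
    have hw : ∀ s t, w s ⬝ᵥ w t = if s = t then 1 else 0 := by
      intro s t
      have := orthonormal_iff_ite.1 hG.1.eigenvectorBasis.orthonormal (ι t) (ι s)
      rw [EuclideanSpace.inner_eq_star_dotProduct] at this
      simpa [w, hι.eq_iff, eq_comm] using this
    have hw2 : ∀ t, (Mᴴ * M) *ᵥ w t = ev (ι t) • w t := fun t => hG.1.mulVec_eigenvectorBasis _
    set φ : (Fin (k + 1) → ℝ) →ₗ[ℝ] (Fin k → ℝ) :=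
      LinearMap.pi fun s => L s ∘ₗ Fintype.linearCombination ℝ w
    obtain ⟨a, ha, ha0⟩ := (Submodule.ne_bot_iff _).1
      (LinearMap.ker_ne_bot_of_finrank_lt (f := φ) (by simp))
    have hpos : 0 < ∑ t, a t * a t := by
      have := (dotProduct_self_star_pos_iff (v := a)).2 ha0
      simpa [dotProduct] using this
    set s := Real.sqrt (∑ t, a t * a t) with hs
    have hs0 : 0 < s := Real.sqrt_pos.2 hpos
    have hss : s * s = ∑ t, a t * a t := Real.mul_self_sqrt hpos.le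
    set b : Fin (k + 1) → ℝ := fun t => a t / s
    have hb : ∑ t, b t * b t = 1 := by
      simp only [b, div_mul_div_comm, ← Finset.sum_div, hss]; exact div_self hpos.ne'
    have key : ∀ x y : Fin (k + 1) → ℝ, (∑ t, x t • w t) ⬝ᵥ (∑ t, y t • w t) = ∑ t, x t * y t := by
      intro x y
      simp only [sum_dotProduct, dotProduct_sum, smul_dotProduct, dotProduct_smul, hw, smul_eq_mul,
        mul_ite, mul_one, mul_zero, Finset.sum_ite_eq, Finset.sum_ite_eq', Finset.mem_univ, if_true]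
      exact Finset.sum_congr rfl fun t _ => by ring
    refine ⟨∑ t, b t • w t, by rw [key, hb], fun t => ?_, ?_⟩
    · have h1 : L t (∑ i, a i • w i) = 0 := by
        have := congrFun (LinearMap.mem_ker.1 ha) t
        simpa [φ, Fintype.linearCombination_apply] using this
      have : ∑ i, b i • w i = s⁻¹ • ∑ i, a i • w i := by
        rw [Finset.smul_sum]
        exact Finset.sum_congr rfl fun i _ => by rw [smul_smul]; congr 1; simp only [b]; ring
      rw [this, map_smul, h1, smul_zero]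
    · have e : ∀ u : Fin n → ℝ, (M *ᵥ u) ⬝ᵥ (M *ᵥ u) = u ⬝ᵥ ((Mᴴ * M) *ᵥ u) := by
        intro u
        rw [← Matrix.mulVec_mulVec, Matrix.dotProduct_mulVec u, Matrix.conjTranspose_eq_transpose_of_trivial,
          Matrix.vecMul_transpose]
      rw [e, Matrix.mulVec_sum]
      simp only [Matrix.mulVec_smul, hw2, smul_smul]
      rw [key]
      calc ev (σ k) = ∑ t, ev (σ k) * (b t * b t) := by rw [← Finset.mul_sum, hb, mul_one]
        _ ≤ _ := Finset.sum_le_sum fun t _ => by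
            have := hσ (Fin.castLE k.2 t) k (by
              have := t.2
              simp only [Fin.le_def, Fin.val_castLE]; omega)
            nlinarith [mul_self_nonneg (b t)]

lemma greedy {X Y : Type*} [NormedAddCommGroup X] [InnerProductSpace ℝ X] [CompleteSpace X]
    [NormedAddCommGroup Y] [NormedSpace ℝ Y] (S : X →L[ℝ] Y) {m : ℕ} {c : ℝ} (hc0 : 0 ≤ c)
    (hc : c < gel m S (closedBall 0 1)) : ∀ j, j ≤ m + 1 →
    ∃ (f : ℕ → X) (l : ℕ → (Y →L[ℝ] ℝ)),
      (∀ i < j, ∀ k < j, ⟪f i, f k⟫_ℝ = if i = k then 1 else 0) ∧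
      ∀ i < j, ‖l i‖ ≤ 1 ∧ c ≤ l i (S (f i)) ∧
        ∀ h, (∀ k ≤ i, ⟪f k, h⟫_ℝ = 0) → l i (S h) = 0 := by
  intro j
  induction j with
  | zero => intro _; exact ⟨0, 0, by simp, by simp⟩
  | succ j ih =>
    intro hj
    obtain ⟨f, l, hf, hl⟩ := ih (by omega)
    obtain ⟨g, hg1, hgL, hgc⟩ := exists_of_lt S hc
      (fun k => if (k : ℕ) < j then innerSL ℝ (f k) else 0)
    have hg : ∀ k < j, ⟪f k, g⟫_ℝ = 0 := fun k hk => by
      simpa [hk] using hgL ⟨k, by omega⟩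
    obtain ⟨lam, hlam1, hlam⟩ := exists_dual_vector'' ℝ (S g)
    set w := (InnerProductSpace.toDual ℝ X).symm (lam.comp S)
    have hw : ∀ h, ⟪w, h⟫_ℝ = lam (S h) := fun h => InnerProductSpace.toDual_symm_apply
    set p := w - ∑ i ∈ Finset.range j, ⟪f i, w⟫_ℝ • f i with hp
    have hp1 : ∀ h, (∀ k < j, ⟪f k, h⟫_ℝ = 0) → ⟪p, h⟫_ℝ = lam (S h) := by
      intro h hh
      rw [hp, inner_sub_left, sum_inner, hw, Finset.sum_eq_zero, sub_zero]
      intro i hi
      rw [real_inner_smul_left, hh i (Finset.mem_range.1 hi), mul_zero]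
    have hp2 : ∀ k < j, ⟪f k, p⟫_ℝ = 0 := by
      intro k hk
      rw [hp, inner_sub_right, inner_sum, Finset.sum_eq_single k]
      · rw [real_inner_smul_right, hf k hk k hk]; simp
      · intro i hi hik
        rw [real_inner_smul_right, hf k hk i (Finset.mem_range.1 hi), if_neg hik.symm, mul_zero]
      · intro h; exact absurd (Finset.mem_range.2 hk) h
    have hpc : c < ‖p‖ := by
      have h1 := hp1 g hg
      have h2 := real_inner_le_norm p g
      have h3 : lam (S g) = ‖S g‖ := by simpa using hlam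
      nlinarith [norm_nonneg p]
    have hp0 : ‖p‖ ≠ 0 := ne_of_gt (by linarith)
    set e := ‖p‖⁻¹ • p with he
    have he1 : ∀ k < j, ⟪f k, e⟫_ℝ = 0 := fun k hk => by
      rw [he, real_inner_smul_right, hp2 k hk, mul_zero]
    have he2 : ⟪p, e⟫_ℝ = ‖p‖ := by
      rw [he, real_inner_smul_right, real_inner_self_eq_norm_sq]; field_simp
    have he3 : ⟪e, e⟫_ℝ = 1 := by
      conv_lhs => rw [he, real_inner_smul_left, ← he, he2]
      field_simp
    refine ⟨Function.update f j e, Function.update l j lam, fun i hi k hk => ?_, fun i hi => ?_⟩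
    · rcases Nat.lt_succ_iff_lt_or_eq.1 hi with hi | rfl <;>
        rcases Nat.lt_succ_iff_lt_or_eq.1 hk with hk | rfl
      · rw [Function.update_of_ne hi.ne, Function.update_of_ne hk.ne]; exact hf i hi k hk
      · rw [Function.update_of_ne hi.ne, Function.update_self, if_neg hi.ne]; exact he1 i hi
      · rw [Function.update_of_ne hk.ne, Function.update_self, if_neg hk.ne', real_inner_comm]
        exact he1 k hk
      · rw [Function.update_self, if_pos rfl]; exact he3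
    · rcases Nat.lt_succ_iff_lt_or_eq.1 hi with hi | rfl
      · rw [Function.update_of_ne hi.ne, Function.update_of_ne hi.ne]
        refine ⟨(hl i hi).1, (hl i hi).2.1, fun h hh => (hl i hi).2.2 h fun k hk => ?_⟩
        have := hh k hk
        rwa [Function.update_of_ne (by omega)] at this
      · rw [Function.update_self, Function.update_self]
        refine ⟨hlam1, by rw [← hp1 e he1, he2]; exact hpc.le, fun h hh => ?_⟩
        rw [← hp1 h fun k hk => by have := hh k hk.le; rwa [Function.update_of_ne hk.ne] at this]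
        have := hh i le_rfl
        rw [Function.update_self, he, real_inner_smul_left] at this
        exact (mul_eq_zero.1 this).resolve_left (inv_ne_zero hp0)

lemma norm_sq_sum {H : Type*} [NormedAddCommGroup H] [InnerProductSpace ℝ H] {n : ℕ}
    {e : Fin n → H} (he : Orthonormal ℝ e) (a : Fin n → ℝ) : ‖∑ i, a i • e i‖ ^ 2 = a ⬝ᵥ a := by
  rw [← real_inner_self_eq_norm_sq, he.inner_sum]
  simp [dotProduct]

theorem result {X Y : Type*} [NormedAddCommGroup X] [InnerProductSpace ℝ X] [CompleteSpace X]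
    [NormedAddCommGroup Y] [NormedSpace ℝ Y] [CompleteSpace Y] (S : X →L[ℝ] Y) (n : ℕ)
    (hn : 1 ≤ n) :
    gel (n - 1) S (closedBall 0 1) ≤
      (n : ℝ) ^ (1 / 2 : ℝ) *
        (∏ k ∈ Finset.range n, hil k S (closedBall 0 1)) ^ (1 / n : ℝ) := by
  have hh0 : ∀ k, 0 ≤ hil k S (closedBall 0 1) := fun k =>
    Real.sSup_nonneg (by rintro t ⟨B, A, x, -, -, -, rfl⟩; exact gel_nonneg _ _ _)
  have hP0 : 0 ≤ ∏ k ∈ Finset.range n, hil k S (closedBall 0 1) :=
    Finset.prod_nonneg fun k _ => hh0 k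
  refine le_of_forall_lt_imp_le_of_dense fun c hc => ?_
  rcases lt_or_ge c 0 with hc0 | hc0
  · exact hc0.le.trans (by positivity)
  obtain ⟨f, l, hf, hl⟩ := greedy S hc0 hc n (by omega)
  have hfo : Orthonormal ℝ fun i : Fin n => f i := by
    rw [orthonormal_iff_ite]
    intro i k
    rw [hf i i.2 k k.2]; simp [Fin.ext_iff]
  set E : Fin n → L2 := fun j => lp.single 2 (j : ℕ) (1 : ℝ)
  have hE : Orthonormal ℝ E := by
    rw [orthonormal_iff_ite]
    intro i k
    simp only [E]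
    rw [lp.inner_single_left]
    by_cases h : i = k
    · simp [h]
    · rw [lp.single_apply_ne _ _ _ (fun h' => h (Fin.ext h'))]; simp [h]
  set r := Real.sqrt n with hr
  have hn0 : (0 : ℝ) < n := by exact_mod_cast hn
  have hr0 : 0 < r := Real.sqrt_pos.2 hn0
  have hrr : r ^ 2 = n := Real.sq_sqrt hn0.le
  set A : L2 →L[ℝ] X := ∑ j : Fin n, (innerSL ℝ (E j)).smulRight (f j)
  set B : Y →L[ℝ] L2 := ∑ i : Fin n, (r⁻¹ • l i).smulRight (E i)
  have hA : ∀ u, A u = ∑ j : Fin n, ⟪E j, u⟫_ℝ • f j := fun u => by simp [A]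
  have hB : ∀ y, B y = ∑ i : Fin n, (r⁻¹ * l i y) • E i := fun y => by simp [B]
  have hA1 : ∀ u, ‖A u‖ ≤ ‖u‖ := by
    intro u
    refine (pow_le_pow_iff_left₀ (norm_nonneg _) (norm_nonneg _) two_ne_zero).1 ?_
    rw [hA, norm_sq_sum hfo]
    have := hE.sum_inner_products_le u (s := Finset.univ)
    simpa [dotProduct, sq] using this
  have hB1 : ‖B‖ ≤ 1 := by
    refine ContinuousLinearMap.opNorm_le_bound _ zero_le_one fun y => ?_
    refine (pow_le_pow_iff_left₀ (norm_nonneg _) (by positivity) two_ne_zero).1 ?_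
    rw [hB, norm_sq_sum hE, one_mul]
    calc _ ≤ ∑ i : Fin n, r⁻¹ ^ 2 * ‖y‖ ^ 2 := by
          refine Finset.sum_le_sum fun i _ => ?_
          have h1 : |l i y| ≤ ‖y‖ := ((l i).le_opNorm y).trans
            (mul_le_of_le_one_left (norm_nonneg _) (hl i i.2).1)
          have h2 : (l i y) ^ 2 ≤ ‖y‖ ^ 2 := by rw [← sq_abs]; gcongr
          calc _ = r⁻¹ ^ 2 * (l i y) ^ 2 := by ring
            _ ≤ _ := by gcongr
      _ = ‖y‖ ^ 2 := by simp only [Finset.sum_const, Finset.card_univ, Fintype.card_fin,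
          nsmul_eq_mul, inv_pow, hrr]; field_simp
  set M : Matrix (Fin n) (Fin n) ℝ := Matrix.of fun i j => l i (S (f j))
  have hdet : c ^ n ≤ M.det := by
    rw [Matrix.det_of_lowerTriangular M]
    · calc c ^ n = ∏ i : Fin n, c := by simp
        _ ≤ _ := Finset.prod_le_prod (fun _ _ => hc0) fun i _ => (hl i i.2).2.1
    · intro i j hij
      have hij' : (i : ℕ) < j := hij
      refine (hl i i.2).2.2 _ fun k hk => ?_
      rw [hf k (by omega) j j.2, if_neg (by omega)]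
  obtain ⟨μ, hμ0, hμ, hsv⟩ := sv M
  have hk : ∀ k : Fin n, Real.sqrt (μ k) / r ≤ hil k S (closedBall 0 1) := by
    intro k
    refine le_trans (le_gel _ fun L => ?_) (le_hil k S B A hB1 hA1)
    obtain ⟨u, hu, huL, huM⟩ := hsv k fun t => (L t).toLinearMap ∘ₗ Fintype.linearCombination ℝ E
    refine ⟨∑ j, u j • E j, ?_, fun t => by simpa [Fintype.linearCombination_apply] using huL t, ?_⟩
    · refine (pow_le_pow_iff_left₀ (norm_nonneg _) zero_le_one two_ne_zero).1 ?_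
      rw [norm_sq_sum hE, hu, one_pow]
    · refine (pow_le_pow_iff_left₀ (by positivity) (norm_nonneg _) two_ne_zero).1 ?_
      simp only [ContinuousLinearMap.comp_apply, hA, hE.inner_right_fintype]
      rw [hB, norm_sq_sum hE, div_pow, Real.sq_sqrt (hμ0 k)]
      have e : (fun i : Fin n => r⁻¹ * l i (S (∑ j, u j • f j))) = r⁻¹ • (M *ᵥ u) := by
        funext i
        simp [M, Matrix.mulVec, dotProduct, mul_comm]
      rw [e, smul_dotProduct, dotProduct_smul, smul_eq_mul, smul_eq_mul]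
      calc μ k / r ^ 2 = r⁻¹ * (r⁻¹ * μ k) := by field_simp
        _ ≤ _ := by gcongr
  have h1 : (c / r) ^ n ≤ ∏ k ∈ Finset.range n, hil k S (closedBall 0 1) := by
    rw [← Fin.prod_univ_eq_prod_range (fun k => hil k S (closedBall 0 1))]
    refine le_trans ?_ (Finset.prod_le_prod (fun k _ => by positivity) fun k _ => hk k)
    rw [Finset.prod_div_distrib, ← Real.sqrt_prod _ (fun i _ => hμ0 i), hμ, Real.sqrt_sq_eq_abs,
      div_pow]
    simp only [Finset.prod_const, Finset.card_univ, Fintype.card_fin]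
    gcongr
    exact hdet.trans (le_abs_self _)
  have h2 := Real.rpow_le_rpow (by positivity) h1 (show (0 : ℝ) ≤ (n : ℝ)⁻¹ by positivity)
  rw [Real.pow_rpow_inv_natCast (by positivity) (by omega), div_le_iff₀ hr0] at h2
  rw [← Real.sqrt_eq_rpow, one_div, mul_comm]
  exact h2

end Pool.Agent.Results.MP_93c8fe_an.NoOver
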